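import Mathlib
import Pool.Agent.W42.RG.Defs2
import Pool.Agent.W933.LX.SHEAR

set_option autoImplicit false
set_option linter.unusedSectionVars false
set_option linter.unusedVariables false

/-!
The rotating shear of a generalised eigenvector.
-/

namespace Pool.Agent.W563.LY

open Finset Filter Topology MeasureTheory Pool.Agent.W42.RN Pool.Agent.W42.RL Pool.Agent.W42.RG
open Pool.Agent.W933.LX

/-- smallness of `ε C (1 + |n|) ^ (d - 1)` if `ε |n| ^ d ≤ U d!` -/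
theorem small_aux (C U η : ℝ) (hC0 : 0 ≤ C) (hU : 0 < U) (hη : 0 < η) (d : ℕ) (hd : 1 ≤ d) :
    ∃ ε₀ > 0, ∀ ε : ℝ, 0 < ε → ε < ε₀ → ∀ n : ℤ, ε * |rt d n| ≤ U →
      ε * (C * (1 + |(n : ℝ)|) ^ (d - 1)) < η := by
  have hfac : (0 : ℝ) < d.factorial := by positivity
  obtain ⟨M, hM⟩ := exists_nat_gt (C * 2 ^ (d - 1) * (U * d.factorial) / η)
  have hM0 : (0 : ℝ) ≤ M := le_trans (by positivity) hM.le
  set M' : ℝ := (M : ℝ) + 1 with hM'
  have hM1 : (1 : ℝ) ≤ M' := by linarith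
  refine ⟨η / (C * (1 + M') ^ (d - 1) + 1), by positivity, fun ε hε hεlt n hn => ?_⟩
  rcases le_or_gt |(n : ℝ)| M' with h2 | h2
  · have h3 : (1 + |(n : ℝ)|) ^ (d - 1) ≤ (1 + M') ^ (d - 1) :=
      pow_le_pow_left₀ (by positivity) (by linarith) _
    calc ε * (C * (1 + |(n : ℝ)|) ^ (d - 1)) ≤ ε * (C * (1 + M') ^ (d - 1)) :=
          mul_le_mul_of_nonneg_left (mul_le_mul_of_nonneg_left h3 hC0) hε.le
      _ ≤ ε * (C * (1 + M') ^ (d - 1) + 1) := by nlinarith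
      _ < η := by rwa [lt_div_iff₀ (by positivity)] at hεlt
  · have hn1 : 1 ≤ |(n : ℝ)| := hM1.trans h2.le
    have hn0 : 0 < |(n : ℝ)| := by linarith
    have h3 : (1 + |(n : ℝ)|) ^ (d - 1) ≤ 2 ^ (d - 1) * |(n : ℝ)| ^ (d - 1) := by
      rw [← mul_pow]
      exact pow_le_pow_left₀ (by positivity) (by linarith) _
    have h4 : ε * |(n : ℝ)| ^ d ≤ U * d.factorial := by
      have h5 : |rt d n| = |(n : ℝ)| ^ d / d.factorial := by
        unfold rt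
        rw [abs_div, abs_pow, abs_of_pos hfac]
      rw [h5, ← mul_div_assoc, div_le_iff₀ hfac] at hn
      exact hn
    have h6 : |(n : ℝ)| ^ d = |(n : ℝ)| ^ (d - 1) * |(n : ℝ)| := by
      rw [← pow_succ]; congr 1; omega
    have h7 : ε * |(n : ℝ)| ^ (d - 1) * |(n : ℝ)| ≤ U * d.factorial := by
      rw [mul_assoc, ← h6]; exact h4
    have h8 : C * 2 ^ (d - 1) * (U * d.factorial) < M * η := by rwa [div_lt_iff₀ hη] at hM
    have hMn : (M : ℝ) < |(n : ℝ)| := by linarith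
    have h9 : (C * 2 ^ (d - 1)) * (ε * |(n : ℝ)| ^ (d - 1)) * |(n : ℝ)| < η * |(n : ℝ)| := by
      have h91 : (C * 2 ^ (d - 1)) * (ε * |(n : ℝ)| ^ (d - 1) * |(n : ℝ)|) ≤
          (C * 2 ^ (d - 1)) * (U * d.factorial) := mul_le_mul_of_nonneg_left h7 (by positivity)
      have h92 : (M : ℝ) * η < |(n : ℝ)| * η := mul_lt_mul_of_pos_right hMn hη
      calc (C * 2 ^ (d - 1)) * (ε * |(n : ℝ)| ^ (d - 1)) * |(n : ℝ)|
          = (C * 2 ^ (d - 1)) * (ε * |(n : ℝ)| ^ (d - 1) * |(n : ℝ)|) := by ring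
        _ ≤ _ := h91
        _ < M * η := h8
        _ < |(n : ℝ)| * η := h92
        _ = _ := mul_comm _ _
    have h10 : (C * 2 ^ (d - 1)) * (ε * |(n : ℝ)| ^ (d - 1)) < η := lt_of_mul_lt_mul_right h9 hn0.le
    refine lt_of_le_of_lt ?_ h10
    calc ε * (C * (1 + |(n : ℝ)|) ^ (d - 1)) ≤ ε * (C * (2 ^ (d - 1) * |(n : ℝ)| ^ (d - 1))) :=
          mul_le_mul_of_nonneg_left (mul_le_mul_of_nonneg_left h3 hC0) hε.le
      _ = _ := by ring

theorem t_RSHR (h : S_RPOLY) : S_RSHR := by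
  intro X _ 𝔤 _ _ _ _ _ _ _ μ _ E hE T hT A hTA K hAK ω hω φ d hd hdK
  have hω0 : ω ≠ 0 := by
    intro h0
    rw [h0, norm_zero] at hω
    exact zero_ne_one hω
  obtain ⟨q, C₀, hq1₀, hq2₀, hq3⟩ := h 𝔤 A K.toSubmodule hAK ω hω0 φ d hd hdK
  set C : ℝ := max C₀ 0 with hC
  have hC0 : 0 ≤ C := le_max_right _ _
  have hpos : ∀ n : ℤ, (0 : ℝ) ≤ (1 + |(n : ℝ)|) ^ (d - 1) := fun n => by positivity
  have hq1 : ∀ l < d, ∀ n : ℤ, |q l n| ≤ C * (1 + |(n : ℝ)|) ^ (d - 1) := fun l hl n =>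
    (hq1₀ l hl n).trans (mul_le_mul_of_nonneg_right (le_max_left _ _) (hpos n))
  have hq2 : ∀ n : ℤ, |q d n - (n : ℝ) ^ d / d.factorial| ≤ C * (1 + |(n : ℝ)|) ^ (d - 1) := fun n =>
    (hq2₀ n).trans (mul_le_mul_of_nonneg_right (le_max_left _ _) (hpos n))
  intro f hf ζ U δ hU hδ
  have hfB : Bd f := ⟨hf.1.mono (mK_le μ E _) le_rfl, hf.2⟩
  set N : ℕ → ℂ →ₗ[ℝ] 𝔤 := fun l => (nw A ω)^[l] φ with hN
  set ψ : ℂ →ₗ[ℝ] 𝔤 := (nw A ω)^[d] φ with hψ
  have hNc : ∀ l, Continuous (N l) := fun l => (N l).continuous_of_finiteDimensional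
  have hψc : Continuous ψ := ψ.continuous_of_finiteDimensional
  set Φ : (Fin (d + 1) → ℂ) → ℂ → 𝔤 := fun t s => ∑ l : Fin (d + 1), N l (t l) + ψ s with hΦ
  have hΦc : Continuous fun q : (Fin (d + 1) → ℂ) × ℂ => Φ q.1 q.2 := by
    simp only [hΦ]
    refine Continuous.add ?_ (hψc.comp continuous_snd)
    refine continuous_finsetSum _ fun l _ => ?_
    exact (hNc l).comp ((continuous_apply l).comp continuous_fst)
  have hev : ∀ᶠ t in 𝓝 (0 : Fin (d + 1) → ℂ), ∀ s ∈ Metric.closedBall (0 : ℂ) (U * ‖ζ‖),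
      ∫ p, ‖f (E (Φ t s) p) - f (E (ψ s) p)‖ ∂μ < δ := by
    apply (isCompact_closedBall (0 : ℂ) (U * ‖ζ‖)).eventually_forall_of_forall_eventually
    intro s₀ _
    have h0 : Φ 0 s₀ = ψ s₀ := by simp [hΦ]
    have h1 : Tendsto (fun q : (Fin (d + 1) → ℂ) × ℂ => Φ q.1 q.2) (𝓝 (0, s₀)) (𝓝 (ψ s₀)) := by
      have := hΦc.tendsto (0, s₀)
      simp only [h0] at this
      exact this
    have h2 : Tendsto (fun q : (Fin (d + 1) → ℂ) × ℂ => ψ q.2) (𝓝 (0, s₀)) (𝓝 (ψ s₀)) :=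
      (hψc.comp continuous_snd).tendsto _
    have h3 := ((hE.cont f hfB (ψ s₀)).comp h1).add ((hE.cont f hfB (ψ s₀)).comp h2)
    rw [add_zero] at h3
    filter_upwards [h3.eventually_lt_const hδ] with q hq
    refine lt_of_le_of_lt ?_ hq
    have b1 : Bd fun p => f (E (Φ q.1 q.2) p) := hfB.comp (hE.mp _).measurable
    have b2 : Bd fun p => f (E (ψ q.2) p) := hfB.comp (hE.mp _).measurable
    have b3 : Bd fun p => f (E (ψ s₀) p) := hfB.comp (hE.mp _).measurable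
    have hi1 : Integrable (fun p => ‖f (E (Φ q.1 q.2) p) - f (E (ψ s₀) p)‖) μ := (b1.int.sub b3.int).norm
    have hi2 : Integrable (fun p => ‖f (E (ψ q.2) p) - f (E (ψ s₀) p)‖) μ := (b2.int.sub b3.int).norm
    simp only [Function.comp_apply]
    rw [← integral_add hi1 hi2]
    apply integral_mono (b1.int.sub b2.int).norm (hi1.add hi2)
    intro p
    show ‖f (E (Φ q.1 q.2) p) - f (E (ψ q.2) p)‖ ≤
      ‖f (E (Φ q.1 q.2) p) - f (E (ψ s₀) p)‖ + ‖f (E (ψ q.2) p) - f (E (ψ s₀) p)‖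
    rw [norm_sub_rev (f (E (ψ q.2) p))]
    exact norm_sub_le_norm_sub_add_norm_sub _ _ _
  obtain ⟨η, hη, hball⟩ := Metric.eventually_nhds_iff.1 hev
  have hz : (0 : ℝ) < ‖ζ‖ + 1 := by positivity
  obtain ⟨ε₀, hε₀, hsm⟩ := small_aux C U (η / (‖ζ‖ + 1)) hC0 hU (div_pos hη hz) d hd
  refine ⟨ε₀, hε₀, fun ε hε hεlt n hn => ?_⟩
  have hbig := hsm ε hε hεlt n hn
  have hzn : ∀ m : ℤ, ‖ω ^ m * (ω ^ d * ζ)‖ = ‖ζ‖ := by
    intro m
    rw [norm_mul, norm_mul, norm_zpow, norm_pow, hω, one_zpow, one_pow, one_mul, one_mul]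
  have hlt : ∀ (a : ℝ) (m : ℤ), |a| ≤ C * (1 + |(n : ℝ)|) ^ (d - 1) →
      ‖(ε * a) • (ω ^ m * (ω ^ d * ζ))‖ < η := by
    intro a m ha
    rw [norm_smul, hzn, Real.norm_eq_abs, abs_mul, abs_of_pos hε]
    have k1 : ε * |a| ≤ ε * (C * (1 + |(n : ℝ)|) ^ (d - 1)) := mul_le_mul_of_nonneg_left ha hε.le
    have k2 : ε * |a| < η / (‖ζ‖ + 1) := lt_of_le_of_lt k1 hbig
    rw [lt_div_iff₀ hz] at k2
    have k3 : 0 ≤ ε * |a| := by positivity
    nlinarith [norm_nonneg ζ]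
  set t : Fin (d + 1) → ℂ := fun l =>
    if (l : ℕ) < d then (ε * q l n) • (ω ^ (n - (l : ℕ)) * (ω ^ d * ζ))
    else (ε * (q d n - (n : ℝ) ^ d / d.factorial)) • (ω ^ (n - (l : ℕ)) * (ω ^ d * ζ)) with ht
  have htη : dist t 0 < η := by
    rw [dist_zero_right, pi_norm_lt_iff hη]
    intro l
    simp only [ht]
    split_ifs with hld
    · exact hlt _ _ (hq1 _ hld n)
    · exact hlt _ _ (hq2 n)
  set s : ℂ := ((ε * rt d n : ℝ) : ℂ) * ω ^ n * ζ with hs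
  have hsm : s ∈ Metric.closedBall (0 : ℂ) (U * ‖ζ‖) := by
    rw [mem_closedBall_zero_iff, hs, norm_mul, norm_mul, norm_zpow, hω, one_zpow, mul_one,
      Complex.norm_real, Real.norm_eq_abs, abs_mul, abs_of_pos hε]
    exact mul_le_mul_of_nonneg_right hn (norm_nonneg _)
  have hss : s = (ε * rt d n) • (ω ^ (n - (d : ℕ)) * (ω ^ d * ζ)) := by
    have e : ω ^ (n - (d : ℕ)) * (ω ^ d * ζ) = ω ^ n * ζ := by
      rw [← mul_assoc, ← zpow_natCast ω d, ← zpow_add₀ hω0, sub_add_cancel]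
    rw [e, Complex.real_smul, hs, mul_assoc]
  have hfin := hball htη _ hsm
  -- rewrite the integral
  set V : 𝔤 := ε • ((A ^ n) (φ (ω ^ d * ζ)) -
    ∑ l ∈ range (d + 1), q l n • ((nw A ω)^[l] φ (ω ^ (n - l) * (ω ^ d * ζ)))) with hV
  have hVK : V ∈ K := K.toSubmodule.smul_mem _ (hq3 n (ω ^ d * ζ))
  have htex : (A ^ n) (ε • φ (ω ^ d * ζ)) = Φ t s + V := by
    have e1 : Φ t s =
        ε • ∑ l ∈ range (d + 1), q l n • ((nw A ω)^[l] φ (ω ^ (n - l) * (ω ^ d * ζ))) := by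
      simp only [hΦ]
      rw [Fin.sum_univ_castSucc, sum_range_succ, sum_range, smul_add, smul_sum, add_assoc]
      congr 1
      · refine sum_congr rfl fun l _ => ?_
        simp only [ht, hN, Fin.val_castSucc, l.isLt, if_true, map_smul, smul_smul]
      · rw [hss]
        simp only [ht, hN, Fin.val_last, lt_irrefl, if_false, map_smul]
        rw [← hψ, ← add_smul, smul_smul]
        congr 1
        unfold rt
        ring
    rw [e1, hV, smul_sub, map_smul]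
    abel
  have hTn := (act_pw hT).mp n
  have e1 : ∫ p, ‖f (pw T n (E (ε • φ (ω ^ d * ζ)) p)) - f (E (ψ s) (pw T n p))‖ ∂μ =
      ∫ p, ‖f (E (Φ t s) (pw T n p)) - f (E (ψ s) (pw T n p))‖ ∂μ := by
    apply integral_congr_ae
    have g1 := (pw_conj' hT A hTA n (ε • φ (ω ^ d * ζ))).fn hfB.meas
    have g2 := sameOn_fn (quot hE K (Φ t s) V hVK) hf.1
    have g3 := hTn.quasiMeasurePreserving.ae_eq_comp g2
    filter_upwards [g1, g3] with p k1 k2
    simp only [Function.comp_apply] at k1 k2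
    rw [k1, htex, k2]
  have e2 : ∫ p, ‖f (E (Φ t s) (pw T n p)) - f (E (ψ s) (pw T n p))‖ ∂μ =
      ∫ p, ‖f (E (Φ t s) p) - f (E (ψ s) p)‖ ∂μ :=
    comp_int hTn (g := fun p => ‖f (E (Φ t s) p) - f (E (ψ s) p)‖)
      ((hfB.comp (hE.mp _).measurable).meas.sub (hfB.comp (hE.mp _).measurable).meas).norm
  rw [e1, e2]
  exact hfin.le

end Pool.Agent.W563.LY
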